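import Pool.Agent.Helper13.TR.StC

/-!
# Project TR, module FN2: manifold points
-/

set_option autoImplicit false

namespace Pool.Agent.Helper36.TR

open Set Topology Pool.Agent.Helper13.TR

/-- one-dimensional cycles bound locally in an open subspace -/
private theorem lh1_open (hPSH : StPSH) {X : Type} [TopologicalSpace X] (U : Set X)
    (hU : IsOpen U) (h : LH1 X) : LH1 ↥U := by
  intro w O hO hwO
  have hi : IsEmbedding (Subtype.val : ↥U → X) := IsEmbedding.subtypeVal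
  have hio : IsOpen (Subtype.val '' O : Set X) := hU.isOpenMap_subtype_val O hO
  obtain ⟨V', hV', hwV', hV'O, hb⟩ := h w (Subtype.val '' O) hio ⟨w, hwO, rfl⟩
  obtain ⟨p1, -, p3, p4, p5, -⟩ := hPSH ↥U X X ⟨Subtype.val, continuous_subtype_val⟩
    (ContinuousMap.id X)
  refine ⟨Subtype.val ⁻¹' V', hV'.preimage continuous_subtype_val, hwV', ?_, ?_⟩
  · intro y hy
    obtain ⟨y', hy', he⟩ := hV'O hy
    rwa [← Subtype.val_injective he]
  · intro z hz hbz
    have h1 : bd 0 (push ⟨Subtype.val, continuous_subtype_val⟩ 1 z) = (0 : Ch X 0) := by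
      rw [p1 0 z, hbz, map_zero]
    obtain ⟨e, he, hbe⟩ := hb _ (p3 V' 1 z hz) h1
    obtain ⟨e', he', hpe⟩ := p5 hi O 2 e he
    refine ⟨e', he', ?_⟩
    apply p4 Subtype.val_injective 1
    rw [← p1 1 e', hpe, hbe]

/-- a closed embedding with an invariant range gives a product -/
private theorem prod_homeo {W V : Type} [TopologicalSpace W] [TopologicalSpace V]
    (f : W → ℝ × ℝ × V) (hf : IsClosedEmbedding f) (A : Set V)
    (hA : range f = {p | p.2.2 ∈ A}) : Nonempty (W ≃ₜ ℝ × ℝ × ↥A) := by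
  have hmem : ∀ w, (f w).2.2 ∈ A := by
    intro w
    have : f w ∈ range f := ⟨w, rfl⟩
    rw [hA] at this
    exact this
  set e := hf.isEmbedding.toHomeomorph with he
  have hmem2 : ∀ q : ℝ × ℝ × ↥A, ((q.1, q.2.1, (q.2.2 : V)) : ℝ × ℝ × V) ∈ range f := by
    intro q
    rw [hA]
    exact q.2.2.2
  refine ⟨⟨⟨fun w => ((f w).1, (f w).2.1, ⟨(f w).2.2, hmem w⟩),
    fun q => e.symm ⟨(q.1, q.2.1, (q.2.2 : V)), hmem2 q⟩, ?_, ?_⟩, ?_, ?_⟩⟩
  · intro w
    show e.symm ⟨((f w).1, (f w).2.1, (f w).2.2), _⟩ = w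
    rw [Homeomorph.symm_apply_eq]
    apply Subtype.ext
    rfl
  · intro q
    have h1 : f (e.symm ⟨(q.1, q.2.1, (q.2.2 : V)), hmem2 q⟩) = (q.1, q.2.1, (q.2.2 : V)) := by
      have := congrArg Subtype.val (e.apply_symm_apply ⟨(q.1, q.2.1, (q.2.2 : V)), hmem2 q⟩)
      exact this
    apply Prod.ext
    · show (f _).1 = q.1
      rw [h1]
    · apply Prod.ext
      · show (f _).2.1 = q.2.1
        rw [h1]
      · apply Subtype.ext
        show (f _).2.2 = (q.2.2 : V)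
        rw [h1]
  · have hc := hf.continuous
    exact (continuous_fst.comp hc).prodMk ((continuous_fst.comp (continuous_snd.comp hc)).prodMk
      ((continuous_snd.comp (continuous_snd.comp hc)).subtype_mk _))
  · refine e.symm.continuous.comp (Continuous.subtype_mk ?_ _)
    exact continuous_fst.prodMk ((continuous_fst.comp continuous_snd).prodMk
      (continuous_subtype_val.comp (continuous_snd.comp continuous_snd)))

theorem hFN2 (hLOC : StLOC) (hGCO : StGCO) (hIND : StIND) (hG1A : StG1A) (hPR2 : StPR2)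
    (hOPN : StOPN) (hHOM : StHOM) (hTRA : StTRA) (hA1D : StA1D) (hPSH : StPSH)
    (_hMON : StMON) : StFN2 := by
  intro X C _ _ _ _ _ _ hHM hLH hC x N hN j hj
  let _ := TopologicalSpace.metrizableSpaceMetric X
  -- localisation
  have hj' : IsEmbedding (fun w => (Homeomorph.prodAssoc ℝ ℝ C).symm (j w)) :=
    (Homeomorph.prodAssoc ℝ ℝ C).symm.isEmbedding.comp hj
  obtain ⟨U, hU, hxU, V, instV, hmetV, hlcV, ⟨i, hi⟩, f, hf⟩ :=
    hLOC (ℝ × ℝ) X C hGCO.2 x N hN _ hj'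
  have hV : IndLT 2 V := hIND.1 2 C V i hi hC
  have hHU : HM ↥U := hOPN X U hU hHM
  have hlpU : LocallyPathConnectedSpace ↥U := hU.locallyPathConnectedSpace
  have hf' : IsClosedEmbedding (fun w => Homeomorph.prodAssoc ℝ ℝ V (f w)) :=
    (Homeomorph.prodAssoc ℝ ℝ V).isClosedEmbedding.comp hf
  obtain ⟨A, hAc, hAr⟩ := hPR2 ↥U V hHU hV _ hf'
  obtain ⟨h⟩ := prod_homeo _ hf' A hAr
  -- the factor
  have : LocallyCompactSpace ↥A := hAc.isClosedEmbedding_subtypeVal.locallyCompactSpace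
  have hA2 : IndLT 2 ↥A := hIND.1 2 V ↥A Subtype.val IsEmbedding.subtypeVal hV
  have hG1 : G1 ↥A := hG1A ↥A hA2
  have hHA : HM (ℝ × ℝ × ↥A) := hHOM ↥U (ℝ × ℝ × ↥A) ⟨h⟩ hHU
  obtain ⟨t1, t2⟩ := hTRA ↥U ↥A h
  have hLA : LH1 ↥A := t1 (lh1_open hPSH U hU hLH)
  have : LocallyPathConnectedSpace ↥A := t2 hlpU
  obtain ⟨U2, hU2, haU2, g, hg⟩ := hA1D ↥A hHA hG1 hLA (h ⟨x, hxU⟩).2.2
  -- the open set
  have hk : IsOpenEmbedding (fun q : ℝ × ℝ × ↥U2 =>
      ((h.symm (q.1, q.2.1, (q.2.2 : ↥A)) : ↥U) : X)) := by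
    have k1 : IsOpenEmbedding (Prod.map id (Prod.map id Subtype.val) : ℝ × ℝ × ↥U2 → ℝ × ℝ × ↥A) :=
      IsOpenEmbedding.id.prodMap (IsOpenEmbedding.id.prodMap hU2.isOpenEmbedding_subtypeVal)
    exact hU.isOpenEmbedding_subtypeVal.comp (h.symm.isOpenEmbedding.comp k1)
  set k : ℝ × ℝ × ↥U2 → X := fun q => ((h.symm (q.1, q.2.1, (q.2.2 : ↥A)) : ↥U) : X) with hkdef
  refine ⟨range k, hk.isOpen_range, ?_, ?_⟩
  · refine ⟨((h ⟨x, hxU⟩).1, (h ⟨x, hxU⟩).2.1, ⟨(h ⟨x, hxU⟩).2.2, haU2⟩), ?_⟩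
    show ((h.symm (h ⟨x, hxU⟩) : ↥U) : X) = x
    rw [Homeomorph.symm_apply_apply]
  · refine ⟨Prod.map id (Prod.map id g) ∘ hk.isEmbedding.toHomeomorph.symm, ?_⟩
    have k2 : IsOpenEmbedding (Prod.map id (Prod.map id g) : ℝ × ℝ × ↥U2 → ℝ × ℝ × ℝ) :=
      IsOpenEmbedding.id.prodMap (IsOpenEmbedding.id.prodMap hg)
    exact k2.comp hk.isEmbedding.toHomeomorph.symm.isOpenEmbedding

end Pool.Agent.Helper36.TR
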